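import Mathlib
import Pool.Agent.Helper982.BasesCircuits

set_option autoImplicit false

namespace Pool.Agent.Results.MP_f3d170_co.HalfRange

open Set Matroid

/-- Two matroids on the labels `0, ..., n-1` are isomorphic: one is obtained from the other by a
relabelling (bijection) of the elements. -/
def IsoM {n : ℕ} (M N : Matroid (Fin n)) : Prop := ∃ e : Fin n ≃ Fin n, M.mapEquiv e = N

/-- `𝒩` is a set of matroids of rank `r` on the `n`-element ground set `{0, ..., n-1}` containing
exactly one representative of each isomorphism class of such matroids. -/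
def IsTransversal (n r : ℕ) (𝒩 : Finset (Matroid (Fin n))) : Prop :=
  (∀ M ∈ 𝒩, M.E = univ ∧ M.eRank = r) ∧
    ∀ M : Matroid (Fin n), M.E = univ → M.eRank = r → ∃! N, N ∈ 𝒩 ∧ IsoM M N

/-- the number of bases of `M` -/
noncomputable def b {n : ℕ} (M : Matroid (Fin n)) : ℕ := {B : Set (Fin n) | M.IsBase B}.ncard

/-- the number of circuits of `M` -/
noncomputable def c {n : ℕ} (M : Matroid (Fin n)) : ℕ := {C : Set (Fin n) | M.IsCircuit C}.ncard

/-- relabelling is an equivalence relation -/
def isoSet (n : ℕ) : Setoid (Matroid (Fin n)) where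
  r := IsoM
  iseqv := ⟨fun M => ⟨Equiv.refl _, Pool.Agent.Helper982.BC.mapEquiv_refl M⟩,
    by
      rintro M N ⟨e, rfl⟩
      exact ⟨e.symm, by
        rw [Pool.Agent.Helper982.BC.mapEquiv_mapEquiv]
        simp [Pool.Agent.Helper982.BC.mapEquiv_refl]⟩,
    by
      rintro M N P ⟨e, rfl⟩ ⟨f, rfl⟩
      exact ⟨e.trans f, by rw [Pool.Agent.Helper982.BC.mapEquiv_mapEquiv]⟩⟩

lemma exists_transversal (n r : ℕ) : ∃ 𝒩 : Finset (Matroid (Fin n)), IsTransversal n r 𝒩 := by
  classical
  have hfin : {M : Matroid (Fin n) | M.E = univ ∧ M.eRank = r}.Finite :=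
    (finite_setOfPred_matroid' (finite_univ (α := Fin n))).subset (fun M h => h.1)
  set f : Matroid (Fin n) → Matroid (Fin n) := fun M => Quotient.out (s := isoSet n) ⟦M⟧ with hf
  have hiso : ∀ M, IsoM (f M) M := fun M => Quotient.exact (s := isoSet n) (Quotient.out_eq _)
  refine ⟨hfin.toFinset.image f, ?_, ?_⟩
  · intro N hN
    rw [Finset.mem_image] at hN
    obtain ⟨M, hM, rfl⟩ := hN
    rw [Finite.mem_toFinset] at hM
    obtain ⟨e, he⟩ := (isoSet n).symm (hiso M)
    rw [← he]
    refine ⟨?_, ?_⟩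
    · rw [mapEquiv_ground_eq, hM.1]
      exact image_univ_of_surjective e.surjective
    · rw [Pool.Agent.Helper982.BC.mapEquiv_eRank]; exact hM.2
  · intro M hE hr
    refine ⟨f M, ⟨Finset.mem_image.2 ⟨M, by rw [Finite.mem_toFinset]; exact ⟨hE, hr⟩, rfl⟩,
      (isoSet n).symm (hiso M)⟩, ?_⟩
    rintro N ⟨hN, hMN⟩
    rw [Finset.mem_image] at hN
    obtain ⟨M', _, rfl⟩ := hN
    have h1 : IsoM M M' := (isoSet n).trans hMN (hiso M')
    have h2 : (Quotient.mk (isoSet n) M) = Quotient.mk (isoSet n) M' := Quotient.sound h1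
    simp only [hf]
    rw [h2]

/-- For every `r ≤ n` there is a system of representatives of the isomorphism classes of the
rank-`r` matroids on `n` elements, and if `n ≤ 2r` then over every such system the total number of
bases is strictly larger than the total number of circuits, i.e. `B(n,r) > C(n,r)`. -/
theorem result :
    (∀ n r : ℕ, ∃ 𝒩 : Finset (Matroid (Fin n)), IsTransversal n r 𝒩) ∧
    ∀ n r : ℕ, r ≤ n → n ≤ 2 * r → ∀ 𝒩 : Finset (Matroid (Fin n)), IsTransversal n r 𝒩 →
      ∑ M ∈ 𝒩, c M < ∑ M ∈ 𝒩, b M := by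
  refine ⟨exists_transversal, ?_⟩
  intro n r hrn h2 S hS
  exact Pool.Agent.Helper982.BC.main n r hrn h2 S hS.1 hS.2

end Pool.Agent.Results.MP_f3d170_co.HalfRange
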